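import Pool.Agent.H86.PG.FC

set_option autoImplicit false

namespace Pool.Agent.H86.PG

open Subgroup

variable {G : Type*} [Group G]

/-- normal subgroups of arbitrarily large finite index inside a given one -/
lemma exists_large_index [Infinite G] (hRF : RF G) {N : Subgroup G} (hN : N.Normal)
    (hi : N.index ≠ 0) (n : ℕ) :
    ∃ M : Subgroup G, M.Normal ∧ M ≤ N ∧ M.index ≠ 0 ∧ n ≤ M.index := by
  induction n with
  | zero => exact ⟨N, hN, le_rfl, hi, Nat.zero_le _⟩
  | succ n ih =>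
    obtain ⟨M, hM, hMN, hMi, hMn⟩ := ih
    obtain ⟨g, hg, hg1⟩ := exists_ne_one_of_infinite (infinite_of_index hMi)
    obtain ⟨L, hL, hLi, hgL⟩ := hRF g hg1
    refine ⟨M ⊓ L, inferInstance, inf_le_left.trans hMN, index_inf_ne_zero hMi hLi, ?_⟩
    have h1 : (M ⊓ L).relIndex M * M.index = (M ⊓ L).index := relIndex_mul_index inf_le_left
    have h2 : (M ⊓ L).relIndex M ≠ 1 := by
      intro h
      rw [relIndex_eq_one] at h
      exact hgL (h hg).2
    have h3 : (M ⊓ L).relIndex M ≠ 0 := by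
      intro h
      rw [h, zero_mul] at h1
      exact index_inf_ne_zero hMi hLi h1.symm
    have h4 : 2 ≤ (M ⊓ L).relIndex M := by omega
    have h5 : 0 < M.index := Nat.pos_of_ne_zero hMi
    nlinarith

/-- the key fact: for an element `a` of a p-group and a normal subgroup `N` meeting the
centralizer of `a` trivially, `a` and any conjugate of `a` by a nontrivial element of `N`
generate an infinite subgroup -/
lemma infinite_closure {p : ℕ} [Fact p.Prime] (hG : IsPGroup p G) {N : Subgroup G}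
    (hN : N.Normal) {a : G} (hav : ∀ z ∈ N, z * a = a * z → z = 1) {x : G} (hx : x ∈ N)
    (hx1 : x ≠ 1) : ((closure {a, x⁻¹ * a * x} : Subgroup G) : Set G).Infinite := by
  intro hf
  have ha : a ∈ closure {a, x⁻¹ * a * x} := subset_closure (Or.inl rfl)
  have hb : x⁻¹ * a * x ∈ closure {a, x⁻¹ * a * x} := subset_closure (Or.inr rfl)
  have hg : a⁻¹ * (x⁻¹ * a * x) ∈ closure {a, x⁻¹ * a * x} := mul_mem (inv_mem ha) hb
  have hgN : a⁻¹ * (x⁻¹ * a * x) ∈ N := by
    have h1 : a⁻¹ * x⁻¹ * a ∈ N := by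
      have := hN.conj_mem x⁻¹ (inv_mem hx) a⁻¹
      simpa using this
    have h2 := mul_mem h1 hx
    simpa [mul_assoc] using h2
  have hg1 : a⁻¹ * (x⁻¹ * a * x) ≠ 1 := by
    intro h
    apply hx1
    apply hav x hx
    have h2 : x⁻¹ * a * x = a := (inv_mul_eq_one.1 h).symm
    rw [mul_assoc, inv_mul_eq_iff_eq_mul] at h2
    exact h2.symm
  obtain ⟨z, hzN, hz1, hza⟩ := exists_commute_of_finite hG hN hf ha hg hgN hg1
  exact hz1 (hav z hzN hza)

/-- for `p = 2` the key fact is contradictory -/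
lemma two_absurd (hG : IsPGroup 2 G) {N : Subgroup G}
    (hN : N.Normal) {a : G} (ha : orderOf a = 2) (hav : ∀ z ∈ N, z * a = a * z → z = 1) {x : G}
    (hx : x ∈ N) (hx1 : x ≠ 1) : False := by
  haveI : Fact (Nat.Prime 2) := ⟨Nat.prime_two⟩
  have haa : a * a = 1 := by
    have := pow_orderOf_eq_one a
    rwa [ha, pow_two] at this
  have hainv : a⁻¹ = a := inv_eq_of_mul_eq_one_left haa
  set g := a⁻¹ * (x⁻¹ * a * x) with hgdef
  have hgN : g ∈ N := by
    have h1 : a⁻¹ * x⁻¹ * a ∈ N := by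
      have := hN.conj_mem x⁻¹ (inv_mem hx) a⁻¹
      simpa using this
    have h2 := mul_mem h1 hx
    simpa [hgdef, mul_assoc] using h2
  have hg1 : g ≠ 1 := by
    intro h
    apply hx1
    apply hav x hx
    have h2 : x⁻¹ * a * x = a := (inv_mul_eq_one.1 h).symm
    rw [mul_assoc, inv_mul_eq_iff_eq_mul] at h2
    exact h2.symm
  -- a inverts g
  have hinv : a * g * a⁻¹ = g⁻¹ := by
    have hb : (x⁻¹ * a * x)⁻¹ = x⁻¹ * a * x := by
      rw [mul_inv_rev, mul_inv_rev, hainv, inv_inv, mul_assoc]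
    rw [hgdef, mul_inv_rev, hb, inv_inv, hainv]
    simp only [mul_assoc]
    rw [← mul_assoc a a, haa, one_mul]
  obtain ⟨k, hk⟩ := exists_pow_orderOf hG hg1
  have hz : g ^ k * g ^ k = 1 := by
    have := pow_orderOf_eq_one (g ^ k)
    rwa [hk, pow_two] at this
  have hzne : g ^ k ≠ 1 := by
    intro h
    rw [h, orderOf_one] at hk
    norm_num at hk
  apply hzne
  apply hav _ (pow_mem hgN k)
  have h1 : a * g ^ k * a⁻¹ = g ^ k := by
    rw [← conj_pow, hinv, inv_pow]
    exact inv_eq_of_mul_eq_one_left hz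
  rw [mul_inv_eq_iff_eq_mul] at h1
  exact h1.symm

section

variable [Infinite G] {p : ℕ}

/-- good pairs -/
lemma exists_avoid [Fact p.Prime] (hRF : RF G) {a : G}
    (ha : (Subgroup.centralizer ({a} : Set G) : Set G).Finite) :
    ∃ N : Subgroup G, N.Normal ∧ N.index ≠ 0 ∧ ∀ z ∈ N, z * a = a * z → z = 1 := by
  obtain ⟨N, hN, hi, hav⟩ := hRF.avoid ha
  refine ⟨N, hN, hi, ?_⟩
  intro z hz hza
  by_contra hz1
  refine hav z ?_ hz1 hz
  change z ∈ Subgroup.centralizer ({a} : Set G)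
  rw [Subgroup.mem_centralizer_iff]
  rintro _ rfl
  exact hza.symm

lemma exists_elem [Fact p.Prime] (hG : IsPGroup p G) (hRF : RF G)
    (hfin : ∀ H : Subgroup G, (H : Set G).Finite ∨ H.index ≠ 0) :
    ∃ a : G, orderOf a = p ∧ (Subgroup.centralizer ({a} : Set G) : Set G).Finite := by
  have hFC := FC_finite hG hRF hfin
  obtain ⟨N, hN, hi, hav⟩ := hRF.avoid hFC
  obtain ⟨x, hx, hx1⟩ := exists_ne_one_of_infinite (infinite_of_index hi)
  obtain ⟨k, hk⟩ := exists_pow_orderOf hG hx1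
  have hne : x ^ k ≠ 1 := by
    intro h
    rw [h, orderOf_one] at hk
    exact (Fact.out : p.Prime).one_lt.ne hk
  refine ⟨x ^ k, hk, ?_⟩
  rcases hfin (Subgroup.centralizer ({x ^ k} : Set G)) with h | h
  · exact h
  · exact absurd (pow_mem hx k) (hav _ (mem_FC.2 h) hne)

/-- the index of the subgroups generated by `a` and a conjugate is finite and unbounded -/
lemma unbounded [Fact p.Prime] (hG : IsPGroup p G) (hRF : RF G)
    (hfin : ∀ H : Subgroup G, (H : Set G).Finite ∨ H.index ≠ 0) {a : G} (hap : orderOf a = p)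
    (ha : (Subgroup.centralizer ({a} : Set G) : Set G).Finite) (n : ℕ) :
    ∃ x : G, (closure {a, x⁻¹ * a * x}).index ≠ 0 ∧ n ≤ (closure {a, x⁻¹ * a * x}).index := by
  obtain ⟨N, hN, hi, hav⟩ := exists_avoid (p := p) hRF ha
  obtain ⟨M, hM, hMN, hMi, hMn⟩ := exists_large_index hRF hN hi (n * p)
  obtain ⟨x, hx, hx1⟩ := exists_ne_one_of_infinite (infinite_of_index hMi)
  have h1 := infinite_closure hG hM (fun z hz => hav z (hMN hz)) hx hx1
  have h2 : (closure {a, x⁻¹ * a * x}).index ≠ 0 := (hfin _).resolve_left h1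
  refine ⟨x, h2, ?_⟩
  set L : Subgroup G := zpowers a ⊔ M with hL
  have h3 : closure {a, x⁻¹ * a * x} ≤ L := by
    rw [closure_le]
    have haL : a ∈ L := (le_sup_left : zpowers a ≤ L) (mem_zpowers a)
    have hxL : x ∈ L := (le_sup_right : M ≤ L) hx
    rintro y (rfl | rfl)
    · exact haL
    · exact mul_mem (mul_mem (inv_mem hxL) haL) hxL
  have h4 : M.relIndex L * L.index = M.index := relIndex_mul_index le_sup_right
  have h5 : M.relIndex L ∣ p := by
    rw [hL, relIndex_sup_right]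
    have := relIndex_dvd_card M (zpowers a)
    rwa [Nat.card_zpowers, hap] at this
  have hp : 0 < p := (Fact.out : p.Prime).pos
  have h6 : M.relIndex L ≤ p := Nat.le_of_dvd hp h5
  have h7 : n * p ≤ p * L.index := by
    calc n * p ≤ M.index := hMn
      _ = M.relIndex L * L.index := h4.symm
      _ ≤ p * L.index := Nat.mul_le_mul_right _ h6
  have h8 : n ≤ L.index := by
    rw [mul_comm n p] at h7
    exact Nat.le_of_mul_le_mul_left h7 hp
  exact h8.trans (Nat.le_of_dvd (Nat.pos_of_ne_zero h2) (index_dvd_of_le h3))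

lemma p_ne_two [Fact p.Prime] (hG : IsPGroup p G) (hRF : RF G)
    (hfin : ∀ H : Subgroup G, (H : Set G).Finite ∨ H.index ≠ 0) : p ≠ 2 := by
  intro hp2
  subst hp2
  obtain ⟨a, hap, ha⟩ := exists_elem hG hRF hfin
  obtain ⟨N, hN, hi, hav⟩ := exists_avoid (p := 2) hRF ha
  obtain ⟨x, hx, hx1⟩ := exists_ne_one_of_infinite (infinite_of_index hi)
  exact two_absurd hG hN hap hav hx hx1

end

end Pool.Agent.H86.PG
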