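import Mathlib

set_option autoImplicit false

namespace Pool.Agent.H86.PG

open Subgroup

variable {G : Type*} [Group G]

/-- a subgroup of finite index in an infinite group is infinite -/
lemma infinite_of_index [Infinite G] {H : Subgroup G} (h : H.index ≠ 0) :
    (H : Set G).Infinite := by
  intro hf
  have h1 := H.card_mul_index
  rw [Nat.card_eq_zero_of_infinite (α := G)] at h1
  have : Nat.card H ≠ 0 := by
    haveI : Finite H := hf
    exact Nat.card_pos.ne'
  rcases Nat.mul_eq_zero.1 h1 with h2 | h2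
  · exact this h2
  · exact h h2

lemma exists_ne_one_of_infinite {S : Set G} (h : S.Infinite) : ∃ x ∈ S, x ≠ 1 := by
  by_contra hc
  push Not at hc
  exact h ((Set.finite_singleton (1 : G)).subset (fun x hx => by simpa using hc x hx))

/-- residual finiteness, in the form of the frozen statement -/
def RF (G : Type*) [Group G] : Prop :=
  ∀ g : G, g ≠ 1 → ∃ N : Subgroup G, N.Normal ∧ N.index ≠ 0 ∧ g ∉ N

lemma RF.avoid (hRF : RF G) {S : Set G} (hS : S.Finite) :
    ∃ N : Subgroup G, N.Normal ∧ N.index ≠ 0 ∧ ∀ g ∈ S, g ≠ 1 → g ∉ N := by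
  induction S, hS using Set.Finite.induction_on with
  | empty => exact ⟨⊤, inferInstance, by simp, by simp⟩
  | @insert a s _ _ ih =>
    obtain ⟨N, hN, hi, h⟩ := ih
    by_cases ha : a = 1
    · refine ⟨N, hN, hi, ?_⟩
      intro g hg hg1
      rcases hg with rfl | hg
      · exact absurd ha hg1
      · exact h g hg hg1
    · obtain ⟨M, hM, hMi, haM⟩ := hRF a ha
      refine ⟨N ⊓ M, inferInstance, index_inf_ne_zero hi hMi, ?_⟩
      intro g hg hg1 hgm
      rcases hg with rfl | hg
      · exact haM hgm.2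
      · exact h g hg hg1 hgm.1

/-- a nontrivial element of a p-group has a power of order p -/
lemma exists_pow_orderOf {p : ℕ} [Fact p.Prime] (hG : IsPGroup p G) {x : G} (hx : x ≠ 1) :
    ∃ k : ℕ, orderOf (x ^ k) = p := by
  obtain ⟨k, hk⟩ := (IsPGroup.iff_orderOf.1 hG) x
  have hk0 : k ≠ 0 := by
    rintro rfl
    rw [pow_zero, orderOf_eq_one_iff] at hk
    exact hx hk
  obtain ⟨m, rfl⟩ := Nat.exists_eq_succ_of_ne_zero hk0
  refine ⟨p ^ m, ?_⟩
  have hp : p ≠ 0 := (Fact.out : p.Prime).ne_zero
  rw [orderOf_pow_of_dvd (pow_ne_zero _ hp) (by rw [hk]; exact pow_dvd_pow p (Nat.le_succ m)), hk,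
    pow_succ]
  exact Nat.mul_div_cancel_left p (pow_pos (Nat.pos_of_ne_zero hp) m)

/-- a finite subgroup of a p-group which contains `a` and a nontrivial element of the normal
subgroup `N` has a nontrivial element of `N` commuting with `a` -/
lemma exists_commute_of_finite {p : ℕ} [Fact p.Prime] (hG : IsPGroup p G) {K N : Subgroup G}
    (hN : N.Normal) (hK : (K : Set G).Finite) {a g : G} (ha : a ∈ K) (hg : g ∈ K) (hgN : g ∈ N)
    (hg1 : g ≠ 1) : ∃ z ∈ N, z ≠ 1 ∧ z * a = a * z := by
  haveI : Finite K := hK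
  have hKp : IsPGroup p K := hG.to_subgroup K
  -- K acts on N ⊓ K by conjugation
  let M : Subgroup K := N.subgroupOf K
  haveI : M.Normal := Subgroup.Normal.subgroupOf hN K
  have hMne : M ≠ ⊥ := by
    intro h
    have : (⟨g, hg⟩ : K) ∈ M := by
      rw [Subgroup.mem_subgroupOf]; exact hgN
    rw [h, Subgroup.mem_bot] at this
    exact hg1 (congrArg Subtype.val this)
  haveI : Nontrivial M := (Subgroup.nontrivial_iff_ne_bot M).2 hMne
  have hMp : IsPGroup p M := hKp.to_subgroup M
  have hdvd : p ∣ Nat.card M := by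
    obtain ⟨n, hn⟩ := IsPGroup.iff_card.1 hMp
    have : n ≠ 0 := by
      rintro rfl
      rw [pow_zero] at hn
      exact absurd hn (Finite.one_lt_card (α := M)).ne'
    rw [hn]; exact dvd_pow_self p this
  have hconj : IsPGroup p (ConjAct K) := hKp.of_equiv ConjAct.toConjAct
  have h1 : (1 : M) ∈ MulAction.fixedPoints (ConjAct K) M := by
    intro k; exact smul_one k
  obtain ⟨z, hz, hz1⟩ :=
    hconj.exists_fixed_point_of_prime_dvd_card_of_fixed_point M hdvd h1
  refine ⟨((z : K) : G), ?_, ?_, ?_⟩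
  · exact (Subgroup.mem_subgroupOf.1 z.2)
  · intro h
    apply hz1
    ext
    simpa using h.symm
  · have h2 := hz (ConjAct.toConjAct ⟨a, ha⟩)
    have h3 : (⟨a, ha⟩ : K) * (z : K) * (⟨a, ha⟩ : K)⁻¹ = (z : K) := by
      have := congrArg (Subtype.val : M → K) h2
      rw [ConjAct.Subgroup.val_conj_smul, ConjAct.smul_def] at this
      simpa using this
    have h4 := congrArg (Subtype.val : K → G) h3
    simp only [Subgroup.coe_mul, Subgroup.coe_inv] at h4
    have h5 : a * ((z : K) : G) = ((z : K) : G) * a := by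
      rw [mul_inv_eq_iff_eq_mul] at h4
      exact h4
    exact h5.symm

end Pool.Agent.H86.PG
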