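import Pool.Agent.H86.PG.Basic

set_option autoImplicit false

namespace Pool.Agent.H86.PG

open Subgroup

/-- an infinite vector space over a finite field has an infinite subspace of infinite index -/
lemma exists_submodule {K V : Type*} [Field K] [Finite K] [AddCommGroup V] [Module K V]
    [Infinite V] : ∃ W : Submodule K V, Infinite W ∧ Infinite (V ⧸ W) := by
  classical
  let b := Module.Basis.ofVectorSpace K V
  have hι : Infinite (Module.Basis.ofVectorSpaceIndex K V) := by
    by_contra h
    rw [not_infinite_iff_finite] at h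
    have : Module.Finite K V := Module.Finite.of_basis b
    have : Finite V := Module.finite_of_finite K
    exact not_finite V
  set ι := Module.Basis.ofVectorSpaceIndex K V
  let e : ℕ ↪ ι := Infinite.natEmbedding ι
  let S : Set ι := Set.range (fun n : ℕ => e (2 * n))
  refine ⟨Submodule.span K (b '' S), ?_, ?_⟩
  · let f : ℕ → Submodule.span K (b '' S) := fun n =>
      ⟨b (e (2 * n)), Submodule.subset_span ⟨_, ⟨n, rfl⟩, rfl⟩⟩
    apply Infinite.of_injective f
    intro m n h
    have h1 : b (e (2 * m)) = b (e (2 * n)) := congrArg Subtype.val h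
    have h2 := e.injective (b.injective h1)
    omega
  · let f : ℕ → V ⧸ Submodule.span K (b '' S) := fun n =>
      Submodule.Quotient.mk (b (e (2 * n + 1)))
    apply Infinite.of_injective f
    intro m n h
    by_contra hmn
    have h1 : b (e (2 * m + 1)) - b (e (2 * n + 1)) ∈ Submodule.span K (b '' S) :=
      (Submodule.Quotient.eq _).1 h
    have h2 : b (e (2 * m + 1)) ∈ Submodule.span K (b '' (S ∪ {e (2 * n + 1)})) := by
      have h3 : Submodule.span K (b '' S) ≤ Submodule.span K (b '' (S ∪ {e (2 * n + 1)})) :=
        Submodule.span_mono (Set.image_mono Set.subset_union_left)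
      have h4 : b (e (2 * n + 1)) ∈ Submodule.span K (b '' (S ∪ {e (2 * n + 1)})) :=
        Submodule.subset_span ⟨_, Or.inr rfl, rfl⟩
      have h5 := Submodule.add_mem _ (h3 h1) h4
      simpa using h5
    have h6 : e (2 * m + 1) ∉ S ∪ {e (2 * n + 1)} := by
      rintro (⟨k, hk⟩ | hk)
      · have := e.injective hk
        omega
      · have := e.injective hk
        omega
    exact b.linearIndependent.notMem_span_image h6 h2

variable {G : Type*} [Group G]

/-- an infinite elementary abelian subgroup contains an infinite subgroup of infinite index -/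
lemma exists_infinite_index_zero {p : ℕ} [Fact p.Prime] {B : Subgroup G}
    (hcomm : ∀ x ∈ B, ∀ y ∈ B, x * y = y * x) (hexp : ∀ x ∈ B, x ^ p = 1)
    (hinf : (B : Set G).Infinite) :
    ∃ C : Subgroup G, (C : Set G).Infinite ∧ C.index = 0 := by
  letI : CommGroup B :=
    { (inferInstance : Group B) with
      mul_comm := fun x y => Subtype.ext (hcomm x x.2 y y.2) }
  letI : Module (ZMod p) (Additive B) := AddCommGroup.zmodModule (n := p) (by
    intro x
    have : (Additive.toMul x) ^ p = 1 := Subtype.ext (by
      rw [Subgroup.coe_pow]; exact hexp _ (Additive.toMul x).2)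
    exact this)
  haveI : Infinite (Additive B) := hinf.to_subtype
  obtain ⟨W, hW1, hW2⟩ := exists_submodule (K := ZMod p) (V := Additive B)
  let C : Subgroup B := AddSubgroup.toSubgroup' W.toAddSubgroup
  have hC1 : Infinite C := hW1
  have hC2 : C.index = 0 := by
    have h1 : C.index = W.toAddSubgroup.index := rfl
    rw [h1, AddSubgroup.index]
    haveI : Infinite (Additive B ⧸ W.toAddSubgroup) := hW2
    exact Nat.card_eq_zero_of_infinite
  refine ⟨C.map B.subtype, ?_, ?_⟩
  · have : ((C.map B.subtype : Subgroup G) : Set G) = Subtype.val '' (C : Set B) := by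
      ext x; simp
    rw [this]
    exact (Set.infinite_coe_iff.1 hC1).image Subtype.val_injective.injOn
  · rw [Subgroup.index_map_subtype, hC2, zero_mul]

/-- the elements with centralizer of finite index -/
def FC (G : Type*) [Group G] : Subgroup G where
  carrier := {g | (Subgroup.centralizer ({g} : Set G)).index ≠ 0}
  mul_mem' := by
    intro a b ha hb
    refine ne_zero_of_dvd_ne_zero (index_inf_ne_zero ha hb) (index_dvd_of_le ?_)
    intro x hx
    have h1 : a * x = x * a := Subgroup.mem_centralizer_iff.1 hx.1 a rfl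
    have h2 : b * x = x * b := Subgroup.mem_centralizer_iff.1 hx.2 b rfl
    rw [Subgroup.mem_centralizer_iff]
    rintro _ rfl
    rw [mul_assoc, h2, ← mul_assoc, h1, mul_assoc]
  one_mem' := by
    have : Subgroup.centralizer ({1} : Set G) = ⊤ := by
      ext x; simp [Subgroup.mem_centralizer_iff]
    simp only [Set.mem_setOf_eq]
    rw [this]; simp
  inv_mem' := by
    intro a ha
    refine ne_zero_of_dvd_ne_zero ha (index_dvd_of_le ?_)
    intro x hx
    have h1 : a * x = x * a := Subgroup.mem_centralizer_iff.1 hx a rfl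
    rw [Subgroup.mem_centralizer_iff]
    rintro _ rfl
    rw [inv_mul_eq_iff_eq_mul, ← mul_assoc, h1, mul_inv_cancel_right]

lemma mem_FC {g : G} : g ∈ FC G ↔ (Subgroup.centralizer ({g} : Set G)).index ≠ 0 := Iff.rfl

lemma index_centralizer_ne_zero {s : Set G} (hs : s.Finite) (h : s ⊆ FC G) :
    (Subgroup.centralizer s).index ≠ 0 := by
  induction s, hs using Set.Finite.induction_on with
  | empty =>
    have : Subgroup.centralizer (∅ : Set G) = ⊤ := by
      ext x; simp [Subgroup.mem_centralizer_iff]
    rw [this]; simp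
  | @insert a s _ _ ih =>
    have h1 := ih (fun x hx => h (Or.inr hx))
    have h2 : (Subgroup.centralizer ({a} : Set G)).index ≠ 0 := h (Or.inl rfl)
    refine ne_zero_of_dvd_ne_zero (index_inf_ne_zero h2 h1) (index_dvd_of_le ?_)
    intro x hx
    rw [Subgroup.mem_centralizer_iff]
    rintro y (rfl | hy)
    · exact Subgroup.mem_centralizer_iff.1 hx.1 y rfl
    · exact Subgroup.mem_centralizer_iff.1 hx.2 y hy

/-- In an infinite residually finite p-group all of whose subgroups are finite or of finite
index, only finitely many elements have a centralizer of finite index. -/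
lemma FC_finite [Infinite G] {p : ℕ} [Fact p.Prime] (hG : IsPGroup p G) (hRF : RF G)
    (hfin : ∀ H : Subgroup G, (H : Set G).Finite ∨ H.index ≠ 0) : (FC G : Set G).Finite := by
  by_contra hFC
  have hFCi : (FC G).index ≠ 0 := (hfin _).resolve_left hFC
  -- maximal commuting sets of elements of FC G with x ^ p = 1
  let S : Set (Set G) := {s | s ⊆ FC G ∧ (∀ x ∈ s, ∀ y ∈ s, x * y = y * x) ∧ ∀ x ∈ s, x ^ p = 1}
  obtain ⟨s, hs⟩ := zorn_subset S (by
    intro c hc hchain
    refine ⟨⋃₀ c, ⟨?_, ?_, ?_⟩, fun t ht => Set.subset_sUnion_of_mem ht⟩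
    · exact Set.sUnion_subset (fun t ht => (hc ht).1)
    · rintro x ⟨t, ht, hx⟩ y ⟨u, hu, hy⟩
      rcases hchain.total ht hu with h | h
      · exact (hc hu).2.1 x (h hx) y hy
      · exact (hc ht).2.1 x hx y (h hy)
    · rintro x ⟨t, ht, hx⟩
      exact (hc ht).2.2 x hx)
  obtain ⟨hs1, hs2, hs3⟩ := hs.prop
  have hsinf : s.Infinite := by
    intro hsf
    obtain ⟨N, hN, hNi, hav⟩ := hRF.avoid hsf
    have hT : (Subgroup.centralizer s ⊓ N ⊓ FC G).index ≠ 0 :=
      index_inf_ne_zero (index_inf_ne_zero (index_centralizer_ne_zero hsf hs1) hNi) hFCi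
    obtain ⟨x, hx, hx1⟩ := exists_ne_one_of_infinite (infinite_of_index hT)
    obtain ⟨k, hk⟩ := exists_pow_orderOf hG hx1
    have hxk : x ^ k ∈ Subgroup.centralizer s ⊓ N ⊓ FC G := Subgroup.pow_mem _ hx k
    have hxk1 : x ^ k ≠ 1 := by
      intro h
      rw [h, orderOf_one] at hk
      exact (Fact.out : p.Prime).one_lt.ne hk
    have hc : ∀ y ∈ s, y * x ^ k = x ^ k * y := fun y hy =>
      Subgroup.mem_centralizer_iff.1 hxk.1.1 y hy
    have hnew : insert (x ^ k) s ∈ S := by
      refine ⟨?_, ?_, ?_⟩
      · rintro y (rfl | hy)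
        · exact hxk.2
        · exact hs1 hy
      · rintro y (rfl | hy) z (rfl | hz)
        · rfl
        · exact (hc z hz).symm
        · exact hc y hy
        · exact hs2 y hy z hz
      · rintro y (rfl | hy)
        · rw [← hk]; exact pow_orderOf_eq_one _
        · exact hs3 y hy
    have hmem : x ^ k ∈ s := hs.le_of_ge hnew (Set.subset_insert _ _) (Set.mem_insert _ _)
    exact hav _ hmem hxk1 hxk.1.2
  -- the subgroup generated by s
  have hcomm : ∀ x ∈ closure s, ∀ y ∈ closure s, x * y = y * x := by
    intro x hx y hy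
    induction hx, hy using Subgroup.closure_induction₂ with
    | mem x y hx hy => exact hs2 x hx y hy
    | one_left x _ => simp
    | one_right x _ => simp
    | mul_left x y z _ _ _ h1 h2 => rw [mul_assoc, h2, ← mul_assoc, h1, mul_assoc]
    | mul_right y z x _ _ _ h1 h2 => rw [← mul_assoc, h1, mul_assoc, h2, mul_assoc]
    | inv_left x y _ _ h => rw [inv_mul_eq_iff_eq_mul, ← mul_assoc, h, mul_inv_cancel_right]
    | inv_right x y _ _ h =>
      rw [mul_inv_eq_iff_eq_mul, mul_assoc, h, inv_mul_cancel_left]
  have hexp : ∀ x ∈ closure s, x ^ p = 1 := by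
    intro x hx
    induction hx using Subgroup.closure_induction with
    | mem x hx => exact hs3 x hx
    | one => simp
    | mul x y hx hy h1 h2 =>
      have : Commute x y := hcomm x hx y hy
      rw [this.mul_pow, h1, h2, mul_one]
    | inv x _ h => rw [inv_pow, h, inv_one]
  obtain ⟨C, hC1, hC2⟩ := exists_infinite_index_zero hcomm hexp
    (hsinf.mono Subgroup.subset_closure)
  rcases hfin C with h | h
  · exact hC1 h
  · exact h hC2

end Pool.Agent.H86.PG
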